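import Mathlib

/-! Discrete core estimates: weighted sums along discretised lines. -/

namespace Pool.Agent.Lib.MP_ef0505_an

open Finset

/-- product of the weights of the digits of the level `k` cell `(a, r)` -/
noncomputable def rho (m n : ℕ) (W : ℤ → ℤ → ℝ) : ℕ → ℤ → ℤ → ℝ
  | 0, _, _ => 1
  | k + 1, a, r => rho m n W k (a / m) (r / n) * W a r

/-- weighted sum along the discretised line `r = ⌊τ a + γ⌋` -/
noncomputable def lineSum (m n : ℕ) (W : ℤ → ℤ → ℝ) (k : ℕ) (τ γ : ℝ) : ℝ :=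
  ∑ a ∈ range (m ^ k), rho m n W k (a : ℤ) ⌊τ * a + γ⌋

theorem sum_range_mul' (f : ℕ → ℝ) (p q : ℕ) :
    ∑ a ∈ range (p * q), f a = ∑ u ∈ range p, ∑ v ∈ range q, f (q * u + v) := by
  induction p with
  | zero => simp
  | succ p ih =>
    rw [Nat.succ_mul, sum_range_add, ih, sum_range_succ]
    congr 1
    apply sum_congr rfl
    intro v _
    rw [mul_comm]

theorem floor_between (x τ : ℝ) (M i : ℕ) (hi : i ≤ M) (h : ⌊x⌋ = ⌊x + τ * M⌋) :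
    ⌊x + τ * i⌋ = ⌊x⌋ := by
  have hi' : (i : ℝ) ≤ M := by exact_mod_cast hi
  have hi0 : (0 : ℝ) ≤ i := by positivity
  rcases le_total 0 τ with hτ | hτ
  · apply le_antisymm
    · rw [h]; apply Int.floor_le_floor; nlinarith
    · apply Int.floor_le_floor; nlinarith
  · apply le_antisymm
    · apply Int.floor_le_floor; nlinarith
    · rw [h]; apply Int.floor_le_floor; nlinarith

theorem count_jumps (x τ : ℝ) (T : ℕ) :
    ∑ u ∈ range T, (if ⌊x + τ * u⌋ = ⌊x + τ * (u + 1)⌋ then (0 : ℝ) else 1) ≤ |τ| * T + 1 := by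
  rcases le_total 0 τ with hτ | hτ
  · have h1 : ∀ u ∈ range T, (if ⌊x + τ * u⌋ = ⌊x + τ * (u + 1)⌋ then (0 : ℝ) else 1)
        ≤ (⌊x + τ * ((u + 1 : ℕ) : ℝ)⌋ : ℝ) - (⌊x + τ * (u : ℝ)⌋ : ℝ) := by
      intro u _
      have hle : ⌊x + τ * u⌋ ≤ ⌊x + τ * (u + 1)⌋ := by
        apply Int.floor_le_floor; nlinarith
      push_cast
      split_ifs with h
      · rw [h]; simp
      · have : ⌊x + τ * u⌋ + 1 ≤ ⌊x + τ * (u + 1)⌋ := by omega
        have : ((⌊x + τ * u⌋ + 1 : ℤ) : ℝ) ≤ (⌊x + τ * (u + 1)⌋ : ℝ) := by exact_mod_cast this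
        push_cast at this
        linarith
    refine (sum_le_sum h1).trans ?_
    rw [sum_range_sub (fun u : ℕ => (⌊x + τ * (u : ℝ)⌋ : ℝ))]
    have a1 := Int.floor_le (x + τ * T)
    have a2 := Int.lt_floor_add_one (x + τ * ((0 : ℕ) : ℝ))
    rw [abs_of_nonneg hτ]
    simp only [Nat.cast_zero, mul_zero, add_zero] at a2 ⊢
    linarith
  · have h1 : ∀ u ∈ range T, (if ⌊x + τ * u⌋ = ⌊x + τ * (u + 1)⌋ then (0 : ℝ) else 1)
        ≤ (⌊x + τ * (u : ℝ)⌋ : ℝ) - (⌊x + τ * ((u + 1 : ℕ) : ℝ)⌋ : ℝ) := by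
      intro u _
      have hle : ⌊x + τ * (u + 1)⌋ ≤ ⌊x + τ * u⌋ := by
        apply Int.floor_le_floor; nlinarith
      push_cast
      split_ifs with h
      · rw [h]; simp
      · have : ⌊x + τ * (u + 1)⌋ + 1 ≤ ⌊x + τ * u⌋ := by omega
        have : ((⌊x + τ * (u + 1)⌋ + 1 : ℤ) : ℝ) ≤ (⌊x + τ * u⌋ : ℝ) := by exact_mod_cast this
        push_cast at this
        linarith
    refine (sum_le_sum h1).trans ?_
    rw [sum_range_sub' (fun u : ℕ => (⌊x + τ * (u : ℝ)⌋ : ℝ))]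
    have a1 := Int.lt_floor_add_one (x + τ * T)
    have a2 := Int.floor_le (x + τ * ((0 : ℕ) : ℝ))
    rw [abs_of_nonpos hτ]
    simp only [Nat.cast_zero, mul_zero, add_zero] at a2 ⊢
    linarith

section

variable {m n : ℕ} {W : ℤ → ℤ → ℝ} {lam : ℝ}

theorem rho_nonneg (hW0 : ∀ a r, 0 ≤ W a r) (k : ℕ) (a r : ℤ) : 0 ≤ rho m n W k a r := by
  induction k generalizing a r with
  | zero => simp [rho]
  | succ k ih => exact mul_nonneg (ih _ _) (hW0 _ _)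

theorem rho_add_le (hW0 : ∀ a r, 0 ≤ W a r) (hW1 : ∀ a r, W a r ≤ lam) (j e : ℕ) (a r : ℤ) :
    rho m n W (j + e) a r ≤ lam ^ e * rho m n W j (a / (m ^ e : ℕ)) (r / (n ^ e : ℕ)) := by
  induction e generalizing a r with
  | zero => simp
  | succ e ih =>
    have hl : 0 ≤ lam := (hW0 0 0).trans (hW1 0 0)
    have e1 : a / (m : ℤ) / ((m ^ e : ℕ) : ℤ) = a / ((m ^ (e + 1) : ℕ) : ℤ) := by
      rw [Int.ediv_ediv_of_nonneg (by positivity)]; push_cast; rw [pow_succ']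
    have e2 : r / (n : ℤ) / ((n ^ e : ℕ) : ℤ) = r / ((n ^ (e + 1) : ℕ) : ℤ) := by
      rw [Int.ediv_ediv_of_nonneg (by positivity)]; push_cast; rw [pow_succ']
    have h := ih (a / m) (r / n)
    rw [e1, e2] at h
    show rho m n W (j + e) (a / m) (r / n) * W a r ≤ _
    calc rho m n W (j + e) (a / m) (r / n) * W a r
        ≤ (lam ^ e * rho m n W j (a / ((m ^ (e + 1) : ℕ) : ℤ)) (r / ((n ^ (e + 1) : ℕ) : ℤ))) * lam :=
          mul_le_mul h (hW1 _ _) (hW0 _ _) (mul_nonneg (pow_nonneg hl _) (rho_nonneg hW0 _ _ _))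
      _ = _ := by ring

/-- cells near a point of the line are covered by integer shifts of the line -/
theorem near_le (hW0 : ∀ a r, 0 ≤ W a r) (k : ℕ) (a : ℤ) (x H : ℝ) (R : Finset ℤ)
    (hR : ∀ r ∈ R, |(r : ℝ) - x| ≤ H) :
    ∑ r ∈ R, rho m n W k a r
      ≤ ∑ t ∈ Icc (-((⌊H⌋₊ : ℤ) + 1)) ((⌊H⌋₊ : ℤ) + 1), rho m n W k a ⌊x + t⌋ := by
  have hinj : Set.InjOn (fun t : ℤ => ⌊x⌋ + t) (Icc (-((⌊H⌋₊ : ℤ) + 1)) ((⌊H⌋₊ : ℤ) + 1) : Finset ℤ) := by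
    intro s _ t _ h
    simpa using h
  simp only [Int.floor_add_intCast]
  rw [← sum_image (f := fun r => rho m n W k a r) hinj]
  apply sum_le_sum_of_subset_of_nonneg
  · intro r hr
    rw [mem_image]
    refine ⟨r - ⌊x⌋, ?_, by ring⟩
    have h := hR r hr
    have hH : 0 ≤ H := (abs_nonneg _).trans h
    have h1 := Nat.lt_floor_add_one H
    have h2 := Int.floor_le x
    have h3 := Int.lt_floor_add_one x
    rw [abs_le] at h
    rw [mem_Icc]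
    constructor
    · have : (-((⌊H⌋₊ : ℝ) + 1)) ≤ (r : ℝ) - (⌊x⌋ : ℝ) := by linarith
      exact_mod_cast this
    · have : (r : ℝ) - (⌊x⌋ : ℝ) < (⌊H⌋₊ : ℝ) + 1 + 1 := by linarith
      have : r - ⌊x⌋ < (⌊H⌋₊ : ℤ) + 1 + 1 := by exact_mod_cast this
      omega
  · intro r _ _
    exact rho_nonneg hW0 _ _ _

theorem shifts_le (k : ℕ) (τ γ H A : ℝ) (hH : 0 ≤ H) (hA : ∀ g, lineSum m n W k τ g ≤ A)
    (hA0 : 0 ≤ A) :
    ∑ a ∈ range (m ^ k), ∑ t ∈ Icc (-((⌊H⌋₊ : ℤ) + 1)) ((⌊H⌋₊ : ℤ) + 1),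
      rho m n W k (a : ℤ) ⌊τ * a + γ + t⌋ ≤ (2 * H + 3) * A := by
  rw [sum_comm]
  have h1 : ∀ t ∈ Icc (-((⌊H⌋₊ : ℤ) + 1)) ((⌊H⌋₊ : ℤ) + 1),
      ∑ a ∈ range (m ^ k), rho m n W k (a : ℤ) ⌊τ * a + γ + t⌋ ≤ A := by
    intro t _
    have := hA (γ + t)
    unfold lineSum at this
    simpa only [add_assoc] using this
  refine (sum_le_card_nsmul _ _ _ h1).trans ?_
  rw [nsmul_eq_mul]
  apply mul_le_mul_of_nonneg_right _ hA0
  rw [Int.card_Icc]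
  have : ((⌊H⌋₊ : ℤ) + 1 + 1 - -((⌊H⌋₊ : ℤ) + 1)).toNat = 2 * ⌊H⌋₊ + 3 := by omega
  rw [this]
  have := Nat.floor_le hH
  push_cast
  linarith

/-- strips from lines -/
theorem strip_le (hW0 : ∀ a r, 0 ≤ W a r) (k : ℕ) (τ γ H A : ℝ) (hH : 0 ≤ H)
    (hA : ∀ g, lineSum m n W k τ g ≤ A) (hA0 : 0 ≤ A) (R : ℕ → Finset ℤ)
    (hR : ∀ a, ∀ r ∈ R a, |(r : ℝ) - (τ * a + γ)| ≤ H) :
    ∑ a ∈ range (m ^ k), ∑ r ∈ R a, rho m n W k (a : ℤ) r ≤ (2 * H + 3) * A := by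
  refine le_trans (sum_le_sum fun a _ => near_le hW0 k a (τ * a + γ) H (R a) (hR a)) ?_
  exact shifts_le k τ γ H A hH hA hA0

end

end Pool.Agent.Lib.MP_ef0505_an
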