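import Pool.Agent.Lib.MP_ef0505_an.Strip

/-! Plane geometry of tubes, the attractor, and the final covering argument. -/

namespace Pool.Agent.Lib.MP_ef0505_an

open Finset MeasureTheory Metric

theorem abs_coord_le (v : EuclideanSpace ℝ (Fin 2)) (i : Fin 2) : |v i| ≤ ‖v‖ := by
  simpa using PiLp.norm_apply_le v i

theorem volume_tube_ge (a b : EuclideanSpace ℝ (Fin 2)) (ε : ℝ) (hε : 0 < ε) (hab : 0 < dist a b) :
    ENNReal.ofReal (ε * dist a b / 2) * volume (ball (0 : EuclideanSpace ℝ (Fin 2)) 1)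
      ≤ volume (thickening ε (segment ℝ a b)) := by
  set L := dist a b with hL
  set u : EuclideanSpace ℝ (Fin 2) := b - a with hu
  have hLu : L = ‖u‖ := by rw [hL, hu, dist_comm, dist_eq_norm]
  have hsq : L ^ 2 = u 0 ^ 2 + u 1 ^ 2 := by
    rw [hLu, EuclideanSpace.norm_sq_eq, Fin.sum_univ_two]; simp
  set A : Matrix (Fin 2) (Fin 2) ℝ := !![u 0 / 2, -(ε / L * u 1); u 1 / 2, ε / L * u 0] with hA
  have hdet : A.det = ε * L / 2 := by
    rw [hA, Matrix.det_fin_two_of]
    field_simp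
    nlinarith
  have h1 := Measure.addHaar_image_linearMap (volume : Measure (EuclideanSpace ℝ (Fin 2)))
    (Matrix.toLpLin 2 2 A) (ball 0 1)
  rw [LinearMap.det_toLpLin, hdet, abs_of_pos (by positivity)] at h1
  rw [← h1, ← measure_preimage_add_right volume (a + (1 / 2 : ℝ) • u) (thickening ε (segment ℝ a b))]
  apply measure_mono
  rintro _ ⟨v, hv, rfl⟩
  rw [mem_ball_zero_iff] at hv
  have hv0 := (abs_coord_le v 0).trans_lt hv
  have hv1 := (abs_coord_le v 1).trans_lt hv
  rw [Set.mem_preimage, mem_thickening_iff]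
  refine ⟨a + ((1 + v 0) / 2) • u, ?_, ?_⟩
  · rw [segment_eq_image']
    rw [abs_lt] at hv0
    exact ⟨(1 + v 0) / 2, ⟨by linarith, by linarith⟩, rfl⟩
  · rw [dist_eq_norm]
    have : Matrix.toLpLin 2 2 A v + (a + (1 / 2 : ℝ) • u) - (a + ((1 + v 0) / 2) • u)
        = (v 1 * ε / L) • (!₂[-(u 1), u 0] : EuclideanSpace ℝ (Fin 2)) := by
      ext i
      fin_cases i <;> simp [hA, Matrix.toLpLin_apply, dotProduct, Fin.sum_univ_two] <;> ring
    rw [this, norm_smul]
    have hn : ‖(!₂[-(u 1), u 0] : EuclideanSpace ℝ (Fin 2))‖ = L := by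
      rw [EuclideanSpace.norm_eq, Fin.sum_univ_two]
      simp only [Real.norm_eq_abs, sq_abs]
      simp only [Matrix.cons_val_zero, Matrix.cons_val_one, neg_sq]
      rw [add_comm, ← hsq, Real.sqrt_sq hab.le]
    rw [hn, Real.norm_eq_abs, abs_div, abs_mul, abs_of_pos hε, abs_of_pos hab]
    field_simp
    exact hv1

theorem tube_subset_strip (a b : EuclideanSpace ℝ (Fin 2)) (ε : ℝ) (hab : 0 < dist a b) :
    ∃ σ c : ℝ, |σ| ≤ 1 ∧
      ((∀ z ∈ thickening ε (segment ℝ a b), |z 1 - (σ * z 0 + c)| ≤ 2 * ε) ∨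
       (∀ z ∈ thickening ε (segment ℝ a b), |z 0 - (σ * z 1 + c)| ≤ 2 * ε)) := by
  have key : ∀ i j : Fin 2, |(b - a) j| ≤ |(b - a) i| → (b - a) i ≠ 0 →
      ∃ σ c : ℝ, |σ| ≤ 1 ∧ ∀ z ∈ thickening ε (segment ℝ a b), |z j - (σ * z i + c)| ≤ 2 * ε := by
    intro i j hij hi
    have hσ : |(b - a) j / (b - a) i| ≤ 1 := by
      rw [abs_div]; exact div_le_one_of_le₀ hij (abs_nonneg _)
    refine ⟨(b - a) j / (b - a) i, a j - (b - a) j / (b - a) i * a i, hσ, ?_⟩
    intro z hz
    rw [mem_thickening_iff] at hz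
    obtain ⟨p, hp, hd⟩ := hz
    rw [segment_eq_image'] at hp
    obtain ⟨t, _, rfl⟩ := hp
    rw [dist_eq_norm] at hd
    have h1 := (abs_coord_le _ i).trans hd.le
    have h2 := (abs_coord_le _ j).trans hd.le
    have e1 : z j - ((b - a) j / (b - a) i * z i + (a j - (b - a) j / (b - a) i * a i))
        = (z - (a + t • (b - a))) j - (b - a) j / (b - a) i * (z - (a + t • (b - a))) i := by
      have hi' : b i - a i ≠ 0 := by simpa using hi
      simp only [PiLp.sub_apply, PiLp.add_apply, PiLp.smul_apply, smul_eq_mul]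
      field_simp
      ring
    rw [e1]
    refine (abs_sub _ _).trans ?_
    rw [abs_mul]
    have := mul_le_mul hσ h1 (abs_nonneg _) zero_le_one
    linarith
  have hne : (b - a) 0 ≠ 0 ∨ (b - a) 1 ≠ 0 := by
    by_contra h
    push Not at h
    have : b - a = 0 := by
      ext i; fin_cases i
      · exact h.1
      · exact h.2
    rw [sub_eq_zero] at this
    rw [this, dist_self] at hab
    exact lt_irrefl _ hab
  rcases le_total |(b - a) 1| |(b - a) 0| with h | h
  · obtain ⟨σ, c, h1, h2⟩ := key 0 1 h (by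
      intro h0
      rw [h0, abs_zero, abs_nonpos_iff] at h
      tauto)
    exact ⟨σ, c, h1, Or.inl h2⟩
  · obtain ⟨σ, c, h1, h2⟩ := key 1 0 h (by
      intro h0
      rw [h0, abs_zero, abs_nonpos_iff] at h
      tauto)
    exact ⟨σ, c, h1, Or.inr h2⟩

section

variable {m n : ℕ} {W : ℤ → ℤ → ℝ} {lam : ℝ}

theorem point_mem (hm : 0 < m) (hn : 0 < n) (F : Set (EuclideanSpace ℝ (Fin 2)))
    (hinv : ∀ a r : ℕ, W a r ≠ 0 → ∀ z ∈ F,
      (!₂[(z 0 + (a % m : ℕ)) / m, (z 1 + (r % n : ℕ)) / n] : EuclideanSpace ℝ (Fin 2)) ∈ F)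
    (K : ℕ) : ∀ a < m ^ K, ∀ r < n ^ K, rho m n W K (a : ℕ) (r : ℕ) ≠ 0 → ∀ z ∈ F,
      (!₂[(z 0 + a) / m ^ K, (z 1 + r) / n ^ K] : EuclideanSpace ℝ (Fin 2)) ∈ F := by
  induction K with
  | zero =>
    intro a ha r hr _ z hz
    have h1 : a = 0 := by simpa using ha
    have h2 : r = 0 := by simpa using hr
    subst h1 h2
    convert hz using 1
    ext i; fin_cases i <;> simp
  | succ K ih =>
    intro a ha r hr h z hz
    have hh : rho m n W K ((a / m : ℕ) : ℤ) ((r / n : ℕ) : ℤ) * W a r ≠ 0 := by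
      simpa [rho] using h
    have ha' : a / m < m ^ K := by
      rw [Nat.div_lt_iff_lt_mul hm]; rwa [pow_succ] at ha
    have hr' : r / n < n ^ K := by
      rw [Nat.div_lt_iff_lt_mul hn]; rwa [pow_succ] at hr
    have := ih _ ha' _ hr' (left_ne_zero_of_mul hh) _ (hinv a r (right_ne_zero_of_mul hh) z hz)
    convert this using 1
    have e1 : (a : ℝ) = m * ((a / m : ℕ) : ℝ) + ((a % m : ℕ) : ℝ) := by
      exact_mod_cast (Nat.div_add_mod a m).symm
    have e2 : (r : ℝ) = n * ((r / n : ℕ) : ℝ) + ((r % n : ℕ) : ℝ) := by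
      exact_mod_cast (Nat.div_add_mod r n).symm
    have hm' : (m : ℝ) ≠ 0 := by positivity
    have hn' : (n : ℝ) ≠ 0 := by positivity
    ext i; fin_cases i
    · simp only [Fin.zero_eta, Matrix.cons_val_zero]
      rw [e1]; field_simp; ring
    · simp only [Fin.mk_one, Matrix.cons_val_one, Matrix.cons_val_zero]
      rw [e2]; field_simp; ring

theorem widths_ge (hm : 1 < m) (hmn : m < n) (hW0 : ∀ a r, 0 ≤ W a r)
    (hW1 : ∀ a r, W a r ≤ lam) (hlam : lam < m)
    (hWs : ∀ (u : ℕ) (r : ℤ), ∑ i ∈ range m, W ((m * u + i : ℕ) : ℤ) r = m)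
    (hWc : ∀ (u : ℕ) (a : ℤ), ∑ i ∈ range n, W a ((n * u + i : ℕ) : ℤ) = n)
    (hper : ∀ a r s t : ℤ, W (m * s + a) (n * t + r) = W a r)
    (F : Set (EuclideanSpace ℝ (Fin 2))) (hne : F.Nonempty)
    (hinv : ∀ a r : ℕ, W a r ≠ 0 → ∀ z ∈ F,
      (!₂[(z 0 + (a % m : ℕ)) / m, (z 1 + (r % n : ℕ)) / n] : EuclideanSpace ℝ (Fin 2)) ∈ F) :
    ∃ C : ℝ, 0 < C ∧ ∀ {ι : Type} (t : Finset ι) (a b : ι → EuclideanSpace ℝ (Fin 2)) (ε : ι → ℝ),
      (∀ i, 0 < ε i) → (∀ i, 0 < dist (a i) (b i)) →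
      F ⊆ ⋃ i ∈ t, thickening (ε i) (segment ℝ (a i) (b i)) → 1 ≤ C * ∑ i ∈ t, ε i := by
  classical
  obtain ⟨C, hC0, hC⟩ := mass_any (by omega) hmn hW0 hW1 hlam hWs hWc hper
  obtain ⟨z, hz⟩ := hne
  have hm' : (0 : ℝ) < m := by have : 0 < m := by omega
                               positivity
  have hn' : (0 : ℝ) < n := by have : 0 < n := by omega
                               positivity
  refine ⟨2 * C, by positivity, ?_⟩
  intro ι t a b ε hε hab hcov
  have hK : ∀ K : ℕ, 1 ≤ 2 * C * ∑ i ∈ t, ε i + C * t.card * (1 / m) ^ K := by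
    intro K
    set P : ι → ℕ → ℕ → Prop := fun i x r =>
      (!₂[(z 0 + x) / m ^ K, (z 1 + r) / n ^ K] : EuclideanSpace ℝ (Fin 2))
        ∈ thickening (ε i) (segment ℝ (a i) (b i)) with hP
    have h1 : (m : ℝ) ^ K * n ^ K ≤ ∑ i ∈ t, mass m n W K (P i) := by
      rw [← total_mass (n := n) hWs K]
      unfold mass
      rw [sum_comm (s := t)]
      apply sum_le_sum
      intro x hx
      rw [sum_comm (s := t)]
      apply sum_le_sum
      intro r hr
      by_cases h0 : rho m n W K x r = 0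
      · rw [h0]; simp
      · have := hcov (point_mem (by omega) (by omega) F hinv K x (mem_range.1 hx) r
          (mem_range.1 hr) h0 z hz)
        simp only [Set.mem_iUnion] at this
        obtain ⟨i, hi, hmem⟩ := this
        refine le_trans (le_of_eq ?_) (single_le_sum (f := fun i =>
          if P i x r then rho m n W K x r else 0) ?_ hi)
        · rw [if_pos hmem]
        · intro j _
          split_ifs
          · exact rho_nonneg hW0 _ _ _
          · exact le_rfl
    have h2 : ∀ i ∈ t, mass m n W K (P i) ≤ C * (2 * ε i + 1 / m ^ K) * (m ^ K * n ^ K) := by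
      intro i _
      obtain ⟨σ, c, hσ, hs⟩ := tube_subset_strip (a i) (b i) (ε i) (hab i)
      rcases hs with hs | hs
      · apply hC K σ (c + σ * (z 0 / m ^ K) - z 1 / n ^ K) _ hσ (by have := hε i; positivity)
        left
        intro x r hp
        have := hs _ hp
        simp only [Matrix.cons_val_zero, Matrix.cons_val_one] at this
        convert this using 2
        ring
      · apply hC K σ (c + σ * (z 1 / n ^ K) - z 0 / m ^ K) _ hσ (by have := hε i; positivity)
        right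
        intro x r hp
        have := hs _ hp
        simp only [Matrix.cons_val_zero, Matrix.cons_val_one] at this
        convert this using 2
        ring
    have h3 := h1.trans (sum_le_sum h2)
    rw [← sum_mul, ← mul_sum, sum_add_distrib, ← mul_sum, sum_const, nsmul_eq_mul] at h3
    have h4 : (0 : ℝ) < m ^ K * n ^ K := by positivity
    rw [le_mul_iff_one_le_left h4] at h3
    rw [one_div_pow]
    linarith
  have hlim : Filter.Tendsto (fun K : ℕ => 2 * C * ∑ i ∈ t, ε i + C * t.card * (1 / (m : ℝ)) ^ K)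
      Filter.atTop (nhds (2 * C * ∑ i ∈ t, ε i + C * t.card * 0)) := by
    apply Filter.Tendsto.const_add
    apply Filter.Tendsto.const_mul
    apply tendsto_pow_atTop_nhds_zero_of_lt_one (by positivity)
    rw [div_lt_one hm']; exact_mod_cast hm
  have := ge_of_tendsto' hlim hK
  simpa using this

end

end Pool.Agent.Lib.MP_ef0505_an
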