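import Pool.Agent.Lib.MP_ef0505_an.Geom

/-! Existence of the attractor, the weights for a grid with one cell removed, and the area bound. -/

namespace Pool.Agent.Lib.MP_ef0505_an

open Finset MeasureTheory Metric

/-- a finite family of continuous injective maps preserving a nonempty compact set has a
nonempty compact invariant set -/
theorem exists_attractor {X ι : Type*} [TopologicalSpace X] [T2Space X] (D : Finset ι)
    (hD : D.Nonempty) (S : ι → X → X) (hc : ∀ d, Continuous (S d))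
    (hi : ∀ d, Function.Injective (S d)) (Q : Set X) (hQ : IsCompact Q) (hQne : Q.Nonempty)
    (hQS : ∀ d ∈ D, S d '' Q ⊆ Q) :
    ∃ F : Set X, F.Nonempty ∧ IsCompact F ∧ F = ⋃ d ∈ D, S d '' F := by
  classical
  let G : ℕ → Set X := fun k => Nat.rec Q (fun _ A => ⋃ d ∈ D, S d '' A) k
  have hG0 : G 0 = Q := rfl
  have hGs : ∀ k, G (k + 1) = ⋃ d ∈ D, S d '' G k := fun k => rfl
  have hcomp : ∀ k, IsCompact (G k) := by
    intro k
    induction k with
    | zero => exact hQ
    | succ k ih => rw [hGs]; exact D.isCompact_biUnion fun d _ => ih.image (hc d)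
  have hne : ∀ k, (G k).Nonempty := by
    intro k
    induction k with
    | zero => exact hQne
    | succ k ih =>
      obtain ⟨d, hd⟩ := hD
      obtain ⟨z, hz⟩ := ih
      rw [hGs]
      exact ⟨S d z, Set.mem_biUnion hd ⟨z, hz, rfl⟩⟩
  have hanti : ∀ k, G (k + 1) ⊆ G k := by
    intro k
    induction k with
    | zero => rw [hGs, hG0]; exact Set.iUnion₂_subset hQS
    | succ k ih =>
      rw [hGs (k + 1)]
      conv_rhs => rw [hGs k]
      exact Set.iUnion₂_mono fun d _ => Set.image_mono ih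
  have hanti' : Antitone G := antitone_nat_of_succ_le hanti
  refine ⟨⋂ k, G k, ?_, ?_, ?_⟩
  · exact IsCompact.nonempty_iInter_of_sequence_nonempty_isCompact_isClosed G hanti hne (hcomp 0)
      (fun k => (hcomp k).isClosed)
  · exact (hcomp 0).of_isClosed_subset (isClosed_iInter fun k => (hcomp k).isClosed)
      (Set.iInter_subset _ 0)
  · apply Set.Subset.antisymm
    · intro z hz
      rw [Set.mem_iInter] at hz
      by_contra hcon
      have h1 : ∀ d, ∃ k, d ∈ D → z ∉ S d '' G k := by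
        intro d
        by_contra h2
        push Not at h2
        apply hcon
        obtain ⟨hd, y, hy, rfl⟩ := h2 0
        refine Set.mem_biUnion hd ⟨y, Set.mem_iInter.2 fun k => ?_, rfl⟩
        obtain ⟨_, y', hy', he⟩ := h2 k
        rwa [← hi d he]
      choose k hk using h1
      have h3 := hz (D.sup k + 1)
      rw [hGs] at h3
      simp only [Set.mem_iUnion] at h3
      obtain ⟨d, hd, h4⟩ := h3
      exact hk d hd (Set.image_mono (hanti' (le_sup hd)) h4)
    · intro z hz
      simp only [Set.mem_iUnion] at hz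
      obtain ⟨d, hd, y, hy, rfl⟩ := hz
      rw [Set.mem_iInter] at hy ⊢
      intro k
      apply hanti k
      rw [hGs]
      exact Set.mem_biUnion hd ⟨y, hy k, rfl⟩

/-- mean zero periodic profile with value `1` at the residue `i0` -/
noncomputable def prof (m i0 : ℕ) (a : ℤ) : ℝ := if a % m = i0 then 1 else -(1 / ((m : ℝ) - 1))

theorem prof_sum {m i0 : ℕ} (hm : 1 < m) (hi : i0 < m) (u : ℕ) :
    ∑ i ∈ range m, prof m i0 ((m * u + i : ℕ) : ℤ) = 0 := by
  have hm' : (1 : ℝ) < m := by exact_mod_cast hm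
  have h1 : ∀ i ∈ range m, prof m i0 ((m * u + i : ℕ) : ℤ)
      = -(1 / ((m : ℝ) - 1)) + if i = i0 then 1 + 1 / ((m : ℝ) - 1) else 0 := by
    intro i hi'
    have : (((m * u + i : ℕ) : ℤ)) % (m : ℤ) = i := by
      have : (m * u + i) % m = i := by
        rw [Nat.mul_add_mod, Nat.mod_eq_of_lt (mem_range.1 hi')]
      exact_mod_cast this
    unfold prof
    rw [this]
    by_cases h : i = i0
    · simp [h]
    · have : ¬ ((i : ℤ) = i0) := by exact_mod_cast h
      simp [h, this]
  rw [sum_congr rfl h1, sum_add_distrib, sum_ite_eq' (range m) i0, if_pos (mem_range.2 hi)]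
  have : (m : ℝ) - 1 ≠ 0 := by linarith
  simp only [sum_const, card_range, nsmul_eq_mul]
  field_simp
  ring

theorem prof_bounds {m : ℕ} (i0 : ℕ) (hm : 3 ≤ m) (a : ℤ) :
    prof m i0 a = 1 ∨ (-(1 / 2) ≤ prof m i0 a ∧ prof m i0 a < 0) := by
  have hm' : (3 : ℝ) ≤ m := by exact_mod_cast hm
  unfold prof
  split_ifs
  · exact Or.inl rfl
  · right
    have h1 : (0 : ℝ) < 1 / ((m : ℝ) - 1) := by apply one_div_pos.2; linarith
    have h2 : 1 / ((m : ℝ) - 1) ≤ 1 / 2 := one_div_le_one_div_of_le (by norm_num) (by linarith)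
    constructor <;> linarith

theorem area_ge {m n : ℕ} (hm : 3 ≤ m) (hmn : m < n) (i0 j0 : ℕ) (hi0 : i0 < m) (hj0 : j0 < n)
    (F : Set (EuclideanSpace ℝ (Fin 2))) (hF : IsCompact F) (hne : F.Nonempty)
    (hinv : ∀ i < m, ∀ j < n, ¬ (i = i0 ∧ j = j0) → ∀ z ∈ F,
      (!₂[(z 0 + (i : ℕ)) / m, (z 1 + (j : ℕ)) / n] : EuclideanSpace ℝ (Fin 2)) ∈ F)
    (l : ℝ) (hl : 0 < l) :
    ∃ δ : ENNReal, 0 < δ ∧ ∀ 𝒯 : Set (Set (EuclideanSpace ℝ (Fin 2))),
      (∀ T ∈ 𝒯, ∃ (a b : EuclideanSpace ℝ (Fin 2)) (ε : ℝ), 0 < ε ∧ l ≤ dist a b ∧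
        T = thickening ε (segment ℝ a b)) →
      F ⊆ ⋃₀ 𝒯 → δ ≤ ∑' T : 𝒯, volume (T : Set (EuclideanSpace ℝ (Fin 2))) := by
  classical
  have hm' : (3 : ℝ) ≤ m := by exact_mod_cast hm
  obtain ⟨C, hC0, hC⟩ := widths_ge (W := fun a r => 1 - prof m i0 a * prof n j0 r) (lam := 2)
    (m := m) (n := n) (by omega) hmn
    (by
      intro a r
      rcases prof_bounds i0 hm a with h1 | ⟨h1, h1'⟩ <;>
        rcases prof_bounds j0 (show 3 ≤ n by omega) r with h2 | ⟨h2, h2'⟩ <;> nlinarith)
    (by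
      intro a r
      rcases prof_bounds i0 hm a with h1 | ⟨h1, h1'⟩ <;>
        rcases prof_bounds j0 (show 3 ≤ n by omega) r with h2 | ⟨h2, h2'⟩ <;> nlinarith)
    (by linarith)
    (by
      intro u r
      rw [sum_sub_distrib, ← sum_mul, prof_sum (by omega) hi0]
      simp)
    (by
      intro u a
      rw [sum_sub_distrib, ← mul_sum, prof_sum (by omega) hj0]
      simp)
    (by
      intro a r s t
      simp only [prof, Int.mul_add_emod_self_left])
    F hne
    (by
      intro a r hW z hz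
      apply hinv _ (Nat.mod_lt _ (by omega)) _ (Nat.mod_lt _ (by omega)) _ z hz
      rintro ⟨h1, h2⟩
      apply hW
      have e1 : (a : ℤ) % (m : ℤ) = i0 := by exact_mod_cast h1
      have e2 : (r : ℤ) % (n : ℤ) = j0 := by exact_mod_cast h2
      simp [prof, e1, e2])
  set v := volume (ball (0 : EuclideanSpace ℝ (Fin 2)) 1) with hv
  have hv0 : 0 < v := measure_ball_pos _ _ one_pos
  refine ⟨ENNReal.ofReal (l / (2 * C)) * v,
    ENNReal.mul_pos (ENNReal.ofReal_pos.2 (by positivity)).ne' hv0.ne', ?_⟩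
  intro 𝒯 h𝒯 hcov
  have h1 : ∀ T : 𝒯, ∃ (a b : EuclideanSpace ℝ (Fin 2)) (ε : ℝ), 0 < ε ∧ l ≤ dist a b ∧
      (T : Set _) = thickening ε (segment ℝ a b) := fun T => h𝒯 T T.2
  choose a b ε hε hab hT using h1
  obtain ⟨t, ht⟩ := hF.elim_finite_subcover (fun T : 𝒯 => (T : Set (EuclideanSpace ℝ (Fin 2))))
    (fun T => by rw [hT T]; exact isOpen_thickening) (by rwa [Set.sUnion_eq_iUnion] at hcov)
  have h2 := hC t a b ε hε (fun T => hl.trans_le (hab T)) (by simpa only [← hT] using ht)
  refine le_trans ?_ (ENNReal.sum_le_tsum t)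
  calc ENNReal.ofReal (l / (2 * C)) * v ≤ ENNReal.ofReal (∑ T ∈ t, ε T * l / 2) * v := by
        gcongr
        rw [← sum_div, ← sum_mul, div_le_div_iff₀ (by positivity) (by positivity)]
        nlinarith
    _ = ∑ T ∈ t, ENNReal.ofReal (ε T * l / 2) * v := by
        rw [ENNReal.ofReal_sum_of_nonneg (fun T _ => by have := hε T; positivity), sum_mul]
    _ ≤ ∑ T ∈ t, volume (T : Set (EuclideanSpace ℝ (Fin 2))) := by
        apply sum_le_sum
        intro T _
        rw [hT T]
        refine le_trans ?_ (volume_tube_ge (a T) (b T) (ε T) (hε T) (hl.trans_le (hab T)))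
        have := hε T
        have := hab T
        gcongr

end Pool.Agent.Lib.MP_ef0505_an
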