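import Pool.Agent.Lib.MP_ef0505_an.Step

/-! Uniform bounds for flat and steep lines, and for the mass of strips. -/

namespace Pool.Agent.Lib.MP_ef0505_an

open Finset

theorem sum_pow_div_le (θ : ℝ) (h0 : 0 ≤ θ) (h1 : θ < 1) (L T : ℕ) (hL : 0 < L) :
    ∑ t ∈ range T, θ ^ (t / L) ≤ L * (1 - θ)⁻¹ := by
  have hsub : range T ⊆ range (T * L) := range_mono (Nat.le_mul_of_pos_right _ hL)
  refine (sum_le_sum_of_subset_of_nonneg hsub (fun i _ _ => pow_nonneg h0 _)).trans ?_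
  rw [sum_range_mul' (fun t => θ ^ (t / L))]
  have : ∀ u ∈ range T, ∑ v ∈ range L, θ ^ ((L * u + v) / L) = L * θ ^ u := by
    intro u _
    have : ∀ v ∈ range L, θ ^ ((L * u + v) / L) = θ ^ u := by
      intro v hv
      rw [Nat.mul_add_div hL, Nat.div_eq_of_lt (mem_range.1 hv), add_zero]
    rw [sum_congr rfl this]
    simp
  rw [sum_congr rfl this, ← mul_sum]
  apply mul_le_mul_of_nonneg_left _ (by positivity)
  rw [← tsum_geometric_of_lt_one h0 h1]
  exact (summable_geometric_of_lt_one h0 h1).sum_le_tsum _ (fun i _ => pow_nonneg h0 _)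

theorem exists_L {m n : ℕ} (hm : 0 < m) (hmn : m < n) :
    ∃ L : ℕ, 0 < L ∧ (n : ℝ) * ((m : ℝ) / n) ^ L ≤ 1 := by
  have hn' : (0 : ℝ) < n := by have : 0 < n := by omega
                               positivity
  have hq : (m : ℝ) / n < 1 := by rw [div_lt_one hn']; exact_mod_cast hmn
  obtain ⟨L, hL⟩ := exists_pow_lt_of_lt_one (show (0 : ℝ) < (n : ℝ)⁻¹ by positivity) hq
  refine ⟨L + 1, by omega, ?_⟩
  have h1 : ((m : ℝ) / n) ^ (L + 1) ≤ ((m : ℝ) / n) ^ L :=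
    pow_le_pow_of_le_one (by positivity) hq.le (by omega)
  calc (n : ℝ) * ((m : ℝ) / n) ^ (L + 1) ≤ n * (n : ℝ)⁻¹ := by gcongr; linarith
    _ = 1 := by field_simp

theorem pow_mul_pow_le {b q : ℝ} (hb : 0 ≤ b) (hq0 : 0 ≤ q) (hq1 : q ≤ 1) (L : ℕ)
    (h : b * q ^ L ≤ 1) (t e : ℕ) (he : e ≤ t / L) : q ^ t * b ^ e ≤ 1 := by
  have h1 : L * e ≤ t := le_trans (Nat.mul_le_mul_left _ he) (Nat.mul_div_le t L)
  calc q ^ t * b ^ e ≤ q ^ (L * e) * b ^ e := by
        gcongr ?_ * _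
        exact pow_le_pow_of_le_one hq0 hq1 h1
    _ = (b * q ^ L) ^ e := by rw [mul_pow, pow_mul]; ring
    _ ≤ 1 := pow_le_one₀ (by positivity) h

section

variable {m n : ℕ} {W : ℤ → ℤ → ℝ} {lam : ℝ}

theorem exists_flat (hm : 0 < m) (hmn : m < n) (hW0 : ∀ a r, 0 ≤ W a r)
    (hW1 : ∀ a r, W a r ≤ lam) (hlam : lam < m)
    (hWs : ∀ (u : ℕ) (r : ℤ), ∑ i ∈ range m, W ((m * u + i : ℕ) : ℤ) r = m) :
    ∃ C : ℝ, 0 ≤ C ∧ ∀ (K : ℕ) (σ : ℝ), |σ| * ((n : ℝ) / m) ^ K ≤ 1 →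
      ∀ γ, lineSum m n W K (σ * (n / m) ^ K) γ ≤ C * m ^ K := by
  obtain ⟨L, hL0, hL⟩ := exists_L hm hmn
  have hn : 0 < n := by omega
  have hl : 0 ≤ lam := (hW0 0 0).trans (hW1 0 0)
  have hn' : (0 : ℝ) < n := by positivity
  have hm' : (0 : ℝ) < m := by positivity
  have hmn' : (m : ℝ) < n := by exact_mod_cast hmn
  have hθ0 : 0 ≤ lam / m := by positivity
  have hθ1 : lam / m < 1 := by rwa [div_lt_one hm']
  have hq0 : (0 : ℝ) ≤ m / n := by positivity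
  have hq1 : (m : ℝ) / n ≤ 1 := by rw [div_le_one hn']; exact hmn'.le
  have hLm : (m : ℝ) * ((m : ℝ) / n) ^ L ≤ 1 := le_trans (by gcongr) hL
  refine ⟨Real.exp ((1 * m + 1) * lam * (2 * 1 + 5)
    * ((1 : ℕ) * (1 - lam / m)⁻¹ + L * (1 - lam / m)⁻¹)), (Real.exp_pos _).le, ?_⟩
  intro K σ hσ γ
  have hkey : ∀ j ≤ K, |σ * ((n : ℝ) / m) ^ j| ≤ ((m : ℝ) / n) ^ (K - j) := by
    intro j hj
    obtain ⟨t, rfl⟩ := Nat.exists_eq_add_of_le hj
    rw [Nat.add_sub_cancel_left, abs_mul, abs_of_nonneg (a := ((n : ℝ) / m) ^ j) (by positivity)]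
    have h1 : ((n : ℝ) / m) ^ t * ((m : ℝ) / n) ^ t = 1 := by
      rw [← mul_pow]
      have : (n : ℝ) / m * (m / n) = 1 := by field_simp
      rw [this, one_pow]
    calc |σ| * ((n : ℝ) / m) ^ j = |σ| * ((n : ℝ) / m) ^ j * (((n : ℝ) / m) ^ t * ((m : ℝ) / n) ^ t) := by
          rw [h1, mul_one]
      _ = (|σ| * ((n : ℝ) / m) ^ (j + t)) * ((m : ℝ) / n) ^ t := by ring
      _ ≤ 1 * ((m : ℝ) / n) ^ t := by gcongr
      _ = _ := one_mul _
  have hg := gronwall hm hn hW0 hW1 hWs σ 1 K (fun l => min l ((K - 1 - l) / L))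
    (fun k => min_le_left _ _)
    (fun j hj => (hkey j hj).trans (pow_le_one₀ hq0 hq1))
    (fun k hk => by
      have h1 := hkey (k + 1) hk
      have h2 := pow_mul_pow_le hm'.le hq0 hq1 L hLm (K - (k + 1)) (min k ((K - 1 - k) / L))
        (by rw [show K - (k + 1) = K - 1 - k by omega]; exact min_le_right _ _)
      exact le_trans (by gcongr) h2) K le_rfl γ
  refine hg.trans ?_
  rw [mul_comm]
  gcongr
  calc ∑ l ∈ range K, (lam / m) ^ (min l ((K - 1 - l) / L))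
      ≤ ∑ l ∈ range K, ((lam / m) ^ (l / 1) + (lam / m) ^ ((K - 1 - l) / L)) := by
        apply sum_le_sum
        intro l _
        rw [Nat.div_one]
        rcases min_choice l ((K - 1 - l) / L) with h | h <;> rw [h]
        · exact le_add_of_nonneg_right (by positivity)
        · exact le_add_of_nonneg_left (by positivity)
    _ ≤ _ := by
        rw [sum_add_distrib, sum_range_reflect (fun t => (lam / m) ^ (t / L))]
        exact add_le_add (sum_pow_div_le _ hθ0 hθ1 1 K one_pos) (sum_pow_div_le _ hθ0 hθ1 L K hL0)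

theorem exists_steep (hm : 0 < m) (hmn : m < n) (hW0 : ∀ a r, 0 ≤ W a r)
    (hW1 : ∀ a r, W a r ≤ lam) (hlam : lam < m)
    (hWs : ∀ (u : ℕ) (r : ℤ), ∑ i ∈ range n, W ((n * u + i : ℕ) : ℤ) r = n) :
    ∃ C : ℝ, 0 ≤ C ∧ ∀ (K : ℕ) (σ : ℝ), |σ| ≤ n →
      ∀ γ, lineSum n m W K (σ * (m / n) ^ K) γ ≤ C * n ^ K := by
  obtain ⟨L, hL0, hL⟩ := exists_L hm hmn
  have hn : 0 < n := by omega
  have hl : 0 ≤ lam := (hW0 0 0).trans (hW1 0 0)
  have hn' : (0 : ℝ) < n := by positivity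
  have hm' : (0 : ℝ) < m := by positivity
  have hmn' : (m : ℝ) < n := by exact_mod_cast hmn
  have hθ0 : 0 ≤ lam / n := by positivity
  have hθ1 : lam / n < 1 := by rw [div_lt_one hn']; linarith
  have hq0 : (0 : ℝ) ≤ m / n := by positivity
  have hq1 : (m : ℝ) / n ≤ 1 := by rw [div_le_one hn']; exact hmn'.le
  refine ⟨Real.exp ((n * n + 1) * lam * (2 * n + 5)
    * (L * (1 - lam / n)⁻¹)), (Real.exp_pos _).le, ?_⟩
  intro K σ hσ γ
  have hkey : ∀ j, |σ * ((m : ℝ) / n) ^ j| ≤ n * ((m : ℝ) / n) ^ j := by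
    intro j
    rw [abs_mul, abs_of_nonneg (a := ((m : ℝ) / n) ^ j) (by positivity)]
    gcongr
  have hg := gronwall hn hm hW0 hW1 hWs σ n K (fun l => l / L)
    (fun k => Nat.div_le_self _ _)
    (fun j _ => (hkey j).trans (mul_le_of_le_one_right hn'.le (pow_le_one₀ hq0 hq1)))
    (fun k _ => by
      have h1 := hkey (k + 1)
      have h2 := pow_mul_pow_le hn'.le hq0 hq1 L hL (k + 1) (k / L)
        (Nat.div_le_div_right (by omega))
      calc _ ≤ n * ((m : ℝ) / n) ^ (k + 1) * n ^ (k / L) := by gcongr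
        _ = n * (((m : ℝ) / n) ^ (k + 1) * n ^ (k / L)) := by ring
        _ ≤ n := mul_le_of_le_one_right hn'.le h2) K le_rfl γ
  refine hg.trans ?_
  rw [mul_comm]
  gcongr
  exact sum_pow_div_le _ hθ0 hθ1 L K hL0

theorem rho_swap (k : ℕ) (a r : ℤ) :
    rho n m (fun r a => W a r) k r a = rho m n W k a r := by
  induction k generalizing a r with
  | zero => rfl
  | succ k ih => simp only [rho]; rw [ih]

theorem rho_factor (hm : 0 < m) (hn : 0 < n)
    (hper : ∀ a r s t : ℤ, W (m * s + a) (n * t + r) = W a r) (k e : ℕ) (a1 r1 a2 r2 : ℕ)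
    (ha : a2 < m ^ e) (hr : r2 < n ^ e) :
    rho m n W (k + e) ((m ^ e * a1 + a2 : ℕ) : ℤ) ((n ^ e * r1 + r2 : ℕ) : ℤ)
      = rho m n W k a1 r1 * rho m n W e a2 r2 := by
  induction e generalizing a2 r2 with
  | zero =>
    have h1 : a2 = 0 := by simpa using ha
    have h2 : r2 = 0 := by simpa using hr
    subst h1 h2
    simp [rho]
  | succ e ih =>
    have e1 : ((m ^ (e + 1) * a1 + a2 : ℕ) : ℤ) / (m : ℤ) = ((m ^ e * a1 + a2 / m : ℕ) : ℤ) := by
      have : (m ^ (e + 1) * a1 + a2) / m = m ^ e * a1 + a2 / m := by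
        rw [pow_succ', mul_assoc, Nat.mul_add_div hm]
      exact_mod_cast this
    have e2 : ((n ^ (e + 1) * r1 + r2 : ℕ) : ℤ) / (n : ℤ) = ((n ^ e * r1 + r2 / n : ℕ) : ℤ) := by
      have : (n ^ (e + 1) * r1 + r2) / n = n ^ e * r1 + r2 / n := by
        rw [pow_succ', mul_assoc, Nat.mul_add_div hn]
      exact_mod_cast this
    have e3 : W ((m ^ (e + 1) * a1 + a2 : ℕ) : ℤ) ((n ^ (e + 1) * r1 + r2 : ℕ) : ℤ) = W a2 r2 := by
      rw [← hper a2 r2 (m ^ e * a1) (n ^ e * r1)]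
      congr 1 <;> push_cast <;> ring
    have ha' : a2 / m < m ^ e := by
      rw [Nat.div_lt_iff_lt_mul hm]; rwa [pow_succ] at ha
    have hr' : r2 / n < n ^ e := by
      rw [Nat.div_lt_iff_lt_mul hn]; rwa [pow_succ] at hr
    show rho m n W (k + e) (_ / _) (_ / _) * _ = _ * (rho m n W e (_ / _) (_ / _) * _)
    rw [e1, e2, e3, ih _ _ ha' hr', mul_assoc]
    norm_cast

theorem sum_rho_row (hWs : ∀ (u : ℕ) (r : ℤ), ∑ i ∈ range m, W ((m * u + i : ℕ) : ℤ) r = m)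
    (k : ℕ) (r : ℤ) : ∑ a ∈ range (m ^ k), rho m n W k (a : ℤ) r = m ^ k := by
  induction k generalizing r with
  | zero => simp [rho]
  | succ k ih =>
    rw [pow_succ, sum_range_mul']
    have : ∀ u ∈ range (m ^ k), ∑ v ∈ range m, rho m n W (k + 1) ((m * u + v : ℕ) : ℤ) r
        = rho m n W k (u : ℤ) (r / n) * m := by
      intro u _
      rw [← hWs u r, mul_sum]
      apply sum_congr rfl
      intro v hv
      show rho m n W k (_ / _) (_ / _) * _ = _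
      rw [ediv_block m u v (mem_range.1 hv)]
    rw [sum_congr rfl this, ← sum_mul, ih, pow_succ]

theorem total_mass (hWs : ∀ (u : ℕ) (r : ℤ), ∑ i ∈ range m, W ((m * u + i : ℕ) : ℤ) r = m)
    (k : ℕ) : ∑ a ∈ range (m ^ k), ∑ r ∈ range (n ^ k), rho m n W k (a : ℤ) (r : ℤ)
      = m ^ k * n ^ k := by
  rw [sum_comm, sum_congr rfl (fun (r : ℕ) _ => sum_rho_row (n := n) hWs k (r : ℤ))]
  simp [mul_comm]

open Classical in
/-- mass of the level `k` cells satisfying a condition -/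
noncomputable def mass (m n : ℕ) (W : ℤ → ℤ → ℝ) (k : ℕ) (P : ℕ → ℕ → Prop) : ℝ :=
  ∑ a ∈ range (m ^ k), ∑ r ∈ range (n ^ k), if P a r then rho m n W k (a : ℤ) (r : ℤ) else 0

theorem mass_le_total (hW0 : ∀ a r, 0 ≤ W a r)
    (hWs : ∀ (u : ℕ) (r : ℤ), ∑ i ∈ range m, W ((m * u + i : ℕ) : ℤ) r = m)
    (k : ℕ) (P : ℕ → ℕ → Prop) : mass m n W k P ≤ m ^ k * n ^ k := by
  rw [← total_mass (n := n) hWs k]
  apply sum_le_sum; intro a _
  apply sum_le_sum; intro r _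
  split_ifs
  · exact le_rfl
  · exact rho_nonneg hW0 _ _ _

theorem mass_swap (k : ℕ) (P : ℕ → ℕ → Prop) :
    mass m n W k P = mass n m (fun r a => W a r) k (fun r a => P a r) := by
  unfold mass
  rw [sum_comm]
  simp only [rho_swap]

theorem mass_strip (hW0 : ∀ a r, 0 ≤ W a r) (k : ℕ) (τ γ H A : ℝ) (hH : 0 ≤ H)
    (hA : ∀ g, lineSum m n W k τ g ≤ A) (hA0 : 0 ≤ A) (P : ℕ → ℕ → Prop)
    (hP : ∀ a r, P a r → |(r : ℝ) - (τ * a + γ)| ≤ H) :
    mass m n W k P ≤ (2 * H + 3) * A := by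
  classical
  refine le_trans (le_of_eq ?_) (strip_le hW0 k τ γ H A hH hA hA0
    (fun a => ((range (n ^ k)).filter (P a)).image (fun r : ℕ => (r : ℤ))) ?_)
  · unfold mass
    apply sum_congr rfl
    intro a _
    rw [sum_image (fun x _ y _ h => by exact_mod_cast h), sum_filter]
  · intro a r hr
    rw [mem_image] at hr
    obtain ⟨s, hs, rfl⟩ := hr
    exact_mod_cast hP a s (mem_filter.1 hs).2

theorem mass_factor (hm : 0 < m) (hn : 0 < n) (hW0 : ∀ a r, 0 ≤ W a r)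
    (hper : ∀ a r s t : ℤ, W (m * s + a) (n * t + r) = W a r) (k e : ℕ)
    (P Q : ℕ → ℕ → Prop) (X : ℝ)
    (hQ : ∀ a1 r1 a2 r2, a2 < m ^ e → r2 < n ^ e → P (m ^ e * a1 + a2) (n ^ e * r1 + r2) → Q a1 r1)
    (hX : ∀ a1 r1, mass m n W e (fun a2 r2 => P (m ^ e * a1 + a2) (n ^ e * r1 + r2)) ≤ X) :
    mass m n W (k + e) P ≤ mass m n W k Q * X := by
  classical
  unfold mass
  rw [pow_add, sum_range_mul', sum_mul]
  apply sum_le_sum
  intro a1 _
  simp only [pow_add n, sum_range_mul']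
  rw [sum_comm, sum_mul]
  apply sum_le_sum
  intro r1 _
  by_cases hq : Q a1 r1
  · rw [if_pos hq]
    refine le_trans (le_of_eq ?_) (mul_le_mul_of_nonneg_left (hX a1 r1) (rho_nonneg hW0 _ _ _))
    unfold mass
    rw [mul_sum]
    apply sum_congr rfl
    intro a2 ha2
    rw [mul_sum]
    apply sum_congr rfl
    intro r2 hr2
    rw [rho_factor hm hn hper k e a1 r1 a2 r2 (mem_range.1 ha2) (mem_range.1 hr2)]
    split_ifs <;> simp
  · rw [if_neg hq, zero_mul]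
    apply le_of_eq
    apply sum_eq_zero
    intro a2 ha2
    apply sum_eq_zero
    intro r2 hr2
    rw [if_neg]
    intro hp
    exact hq (hQ a1 r1 a2 r2 (mem_range.1 ha2) (mem_range.1 hr2) hp)

end

end Pool.Agent.Lib.MP_ef0505_an
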