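import Pool.Agent.Lib.MP_ef0505_an.Core

/-! The one-level recursion for the line sums and the Gronwall argument. -/

namespace Pool.Agent.Lib.MP_ef0505_an

open Finset

section

variable {m n : ℕ} {W : ℤ → ℤ → ℝ} {lam : ℝ}

theorem ediv_block (q : ℕ) (u v : ℕ) (hv : v < q) :
    (((q * u + v : ℕ) : ℤ)) / (q : ℤ) = u := by
  have hq : 0 < q := by omega
  have : (q * u + v) / q = u := by
    rw [Nat.mul_add_div hq, Nat.div_eq_of_lt hv, add_zero]
  exact_mod_cast this

/-- one parent column -/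
theorem parent_le (hn : 0 < n) (hW0 : ∀ a r, 0 ≤ W a r)
    (hWs : ∀ (u : ℕ) (r : ℤ), ∑ i ∈ range m, W ((m * u + i : ℕ) : ℤ) r = m)
    (k : ℕ) (τ γ : ℝ) (u : ℕ) (E : ℝ)
    (hE : ∀ i < m, rho m n W (k + 1) ((m * u + i : ℕ) : ℤ) ⌊τ * ((m * u + i : ℕ) : ℝ) + γ⌋ ≤ E) :
    ∑ i ∈ range m, rho m n W (k + 1) ((m * u + i : ℕ) : ℤ) ⌊τ * ((m * u + i : ℕ) : ℝ) + γ⌋
      ≤ m * rho m n W k (u : ℤ) ⌊τ * m / n * u + γ / n⌋
        + (if ⌊γ + τ * m * u⌋ = ⌊γ + τ * m * (u + 1)⌋ then (0 : ℝ) else 1) * (m * E) := by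
  have hn' : (n : ℝ) ≠ 0 := by positivity
  split_ifs with h
  · rw [zero_mul, add_zero]
    have hfl : ∀ i ∈ range m, ⌊τ * ((m * u + i : ℕ) : ℝ) + γ⌋ = ⌊γ + τ * m * u⌋ := by
      intro i hi
      have hi' : i ≤ m := (mem_range.1 hi).le
      have h2 : ⌊γ + τ * m * u⌋ = ⌊γ + τ * m * u + τ * m⌋ := by
        rw [h]; congr 1; ring
      rw [← floor_between (γ + τ * m * u) τ m i hi' h2]
      congr 1; push_cast; ring
    have hdiv : ⌊γ + τ * m * u⌋ / (n : ℤ) = ⌊τ * m / n * u + γ / n⌋ := by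
      rw [← Int.floor_div_natCast]
      congr 1; field_simp; ring
    have : ∀ i ∈ range m, rho m n W (k + 1) ((m * u + i : ℕ) : ℤ) ⌊τ * ((m * u + i : ℕ) : ℝ) + γ⌋
        = rho m n W k (u : ℤ) ⌊τ * m / n * u + γ / n⌋ * W ((m * u + i : ℕ) : ℤ) ⌊γ + τ * m * u⌋ := by
      intro i hi
      rw [hfl i hi]
      show rho m n W k (_ / _) (_ / _) * _ = _
      rw [ediv_block m u i (mem_range.1 hi), hdiv]
    rw [sum_congr rfl this, ← mul_sum, hWs, mul_comm]
  · have h1 : ∑ i ∈ range m, rho m n W (k + 1) ((m * u + i : ℕ) : ℤ)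
        ⌊τ * ((m * u + i : ℕ) : ℝ) + γ⌋ ≤ m * E := by
      have := sum_le_card_nsmul (range m) _ E (fun i hi => hE i (mem_range.1 hi))
      simpa using this
    have h2 : 0 ≤ (m : ℝ) * rho m n W k (u : ℤ) ⌊τ * m / n * u + γ / n⌋ :=
      mul_nonneg (by positivity) (rho_nonneg hW0 _ _ _)
    linarith

theorem step_le (hm : 0 < m) (hn : 0 < n) (hW0 : ∀ a r, 0 ≤ W a r) (hW1 : ∀ a r, W a r ≤ lam)
    (hWs : ∀ (u : ℕ) (r : ℤ), ∑ i ∈ range m, W ((m * u + i : ℕ) : ℤ) r = m)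
    (j d : ℕ) (τ γ A A' B : ℝ)
    (hA : ∀ g, lineSum m n W (j + d) (τ * m / n) g ≤ A)
    (hA' : ∀ g, lineSum m n W j (τ * (m / n) ^ (d + 1)) g ≤ A') (hA0 : 0 ≤ A')
    (hB : |τ * (m / n) ^ (d + 1)| ≤ B) :
    lineSum m n W (j + d + 1) τ γ
      ≤ m * A + (|τ| * m ^ (d + 1) + 1) * m * lam ^ (d + 1) * ((2 * B + 5) * A') := by
  have hl : 0 ≤ lam := (hW0 0 0).trans (hW1 0 0)
  have hn' : (0 : ℝ) < n := by positivity
  have hm' : (0 : ℝ) < m := by positivity
  have hB0 : 0 ≤ B := (abs_nonneg _).trans hB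
  set τ2 : ℝ := τ * (m / n) ^ (d + 1) with hτ2
  set γ2 : ℝ := γ / n ^ (d + 1) with hγ2
  set N : ℤ := (⌊B + 1⌋₊ : ℤ) + 1 with hN
  set E : ℕ → ℝ := fun a => ∑ t ∈ Icc (-N) N, rho m n W j (a : ℤ) ⌊τ2 * a + γ2 + t⌋ with hEdef
  have hE0 : ∀ a, 0 ≤ E a := fun a => sum_nonneg fun t _ => rho_nonneg hW0 _ _ _
  have hEsum : ∑ a ∈ range (m ^ j), E a ≤ (2 * B + 5) * A' := by
    have := shifts_le (m := m) (n := n) (W := W) j τ2 γ2 (B + 1) A' (by linarith) hA' hA0
    calc _ ≤ _ := this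
      _ = _ := by ring
  -- pointwise bound inside a block
  have hpt : ∀ a2 v i : ℕ, v < m ^ d → i < m →
      rho m n W (j + d + 1) ((m * (m ^ d * a2 + v) + i : ℕ) : ℤ)
        ⌊τ * ((m * (m ^ d * a2 + v) + i : ℕ) : ℝ) + γ⌋ ≤ lam ^ (d + 1) * E a2 := by
    intro a2 v i hv hi
    have hlt : m * v + i < m ^ (d + 1) := by
      rw [pow_succ']
      have : m * (v + 1) ≤ m * m ^ d := Nat.mul_le_mul_left _ hv
      nlinarith
    have hre : m * (m ^ d * a2 + v) + i = m ^ (d + 1) * a2 + (m * v + i) := by ring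
    rw [hre, add_assoc j d 1]
    refine (rho_add_le hW0 hW1 j (d + 1) _ _).trans ?_
    apply mul_le_mul_of_nonneg_left _ (pow_nonneg hl _)
    rw [ediv_block _ _ _ hlt, ← Int.floor_div_natCast]
    set s : ℝ := ((m * v + i : ℕ) : ℝ) / (m : ℝ) ^ (d + 1) with hs
    have hs0 : 0 ≤ s := by positivity
    have hs1 : s ≤ 1 := by
      rw [hs, div_le_one (by positivity)]
      exact_mod_cast hlt.le
    have hx : (τ * ((m ^ (d + 1) * a2 + (m * v + i) : ℕ) : ℝ) + γ) / ((n ^ (d + 1) : ℕ) : ℝ)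
        = τ2 * a2 + γ2 + τ2 * s := by
      rw [hτ2, hγ2, hs, div_pow]
      push_cast
      field_simp
      ring
    rw [hx]
    have := near_le (m := m) (n := n) hW0 j (a2 : ℤ) (τ2 * a2 + γ2) (B + 1)
      {⌊τ2 * a2 + γ2 + τ2 * s⌋} (by
        intro r hr
        rw [mem_singleton] at hr
        subst hr
        have h1 := Int.floor_le (τ2 * a2 + γ2 + τ2 * s)
        have h2 := Int.lt_floor_add_one (τ2 * a2 + γ2 + τ2 * s)
        have h3 : |τ2 * s| ≤ B := by
          rw [abs_mul, abs_of_nonneg hs0]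
          nlinarith [abs_nonneg τ2]
        rw [abs_le] at h3 ⊢
        constructor <;> linarith)
    rw [sum_singleton] at this
    exact this
  unfold lineSum
  rw [pow_succ, sum_range_mul']
  -- split the parents in blocks
  have hmain : ∑ u ∈ range (m ^ (j + d)), ∑ v ∈ range m,
        rho m n W (j + d + 1) ((m * u + v : ℕ) : ℤ) ⌊τ * ((m * u + v : ℕ) : ℝ) + γ⌋
      ≤ ∑ u ∈ range (m ^ (j + d)), (m * rho m n W (j + d) (u : ℤ) ⌊τ * m / n * u + γ / n⌋
        + (if ⌊γ + τ * m * u⌋ = ⌊γ + τ * m * (u + 1)⌋ then (0 : ℝ) else 1)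
          * (m * (lam ^ (d + 1) * E (u / m ^ d)))) := by
    apply sum_le_sum
    intro u _
    apply parent_le hn hW0 hWs
    intro i hi
    have := hpt (u / m ^ d) (u % m ^ d) i (Nat.mod_lt _ (by positivity)) hi
    rwa [Nat.div_add_mod] at this
  refine hmain.trans ?_
  rw [sum_add_distrib, ← mul_sum]
  apply add_le_add
  · exact mul_le_mul_of_nonneg_left (hA _) hm'.le
  · rw [pow_add, sum_range_mul']
    have hblock : ∀ a2 ∈ range (m ^ j), ∑ v ∈ range (m ^ d),
        (if ⌊γ + τ * m * ((m ^ d * a2 + v : ℕ) : ℝ)⌋ = ⌊γ + τ * m * (((m ^ d * a2 + v : ℕ) : ℝ) + 1)⌋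
          then (0 : ℝ) else 1) * (m * (lam ^ (d + 1) * E ((m ^ d * a2 + v) / m ^ d)))
        ≤ (|τ| * m ^ (d + 1) + 1) * m * lam ^ (d + 1) * E a2 := by
      intro a2 _
      have h1 : ∀ v ∈ range (m ^ d),
          (if ⌊γ + τ * m * ((m ^ d * a2 + v : ℕ) : ℝ)⌋
              = ⌊γ + τ * m * (((m ^ d * a2 + v : ℕ) : ℝ) + 1)⌋
            then (0 : ℝ) else 1) * (m * (lam ^ (d + 1) * E ((m ^ d * a2 + v) / m ^ d)))
          = (if ⌊(γ + τ * m * (m ^ d * a2)) + τ * m * v⌋
              = ⌊(γ + τ * m * (m ^ d * a2)) + τ * m * (v + 1)⌋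
            then (0 : ℝ) else 1) * (m * (lam ^ (d + 1) * E a2)) := by
        intro v hv
        have e1 : (m ^ d * a2 + v) / m ^ d = a2 := by
          rw [Nat.mul_add_div (by positivity), Nat.div_eq_of_lt (mem_range.1 hv), add_zero]
        have e2 : γ + τ * m * ((m ^ d * a2 + v : ℕ) : ℝ)
            = (γ + τ * m * (m ^ d * a2)) + τ * m * v := by push_cast; ring
        have e3 : γ + τ * m * (((m ^ d * a2 + v : ℕ) : ℝ) + 1)
            = (γ + τ * m * (m ^ d * a2)) + τ * m * (v + 1) := by push_cast; ring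
        rw [e1, e2, e3]
      rw [sum_congr rfl h1, ← sum_mul]
      have h2 := count_jumps (γ + τ * m * (m ^ d * a2)) (τ * m) (m ^ d)
      have h3 : |τ * m| * ((m ^ d : ℕ) : ℝ) + 1 = |τ| * m ^ (d + 1) + 1 := by
        rw [abs_mul, abs_of_pos hm']; push_cast; ring
      rw [h3] at h2
      calc _ ≤ (|τ| * m ^ (d + 1) + 1) * (m * (lam ^ (d + 1) * E a2)) :=
            mul_le_mul_of_nonneg_right h2
              (mul_nonneg hm'.le (mul_nonneg (pow_nonneg hl _) (hE0 _)))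
        _ = _ := by ring
    refine (sum_le_sum hblock).trans ?_
    rw [← mul_sum]
    apply mul_le_mul_of_nonneg_left hEsum
    positivity

theorem gronwall (hm : 0 < m) (hn : 0 < n) (hW0 : ∀ a r, 0 ≤ W a r) (hW1 : ∀ a r, W a r ≤ lam)
    (hWs : ∀ (u : ℕ) (r : ℤ), ∑ i ∈ range m, W ((m * u + i : ℕ) : ℤ) r = m)
    (σ B : ℝ) (K : ℕ) (d : ℕ → ℕ) (hd : ∀ k, d k ≤ k)
    (hB : ∀ j ≤ K, |σ * (n / m) ^ j| ≤ B)
    (hBd : ∀ k < K, |σ * (n / m) ^ (k + 1)| * m ^ d k ≤ B) :
    ∀ k ≤ K, ∀ γ, lineSum m n W k (σ * (n / m) ^ k) γ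
      ≤ m ^ k * Real.exp ((B * m + 1) * lam * (2 * B + 5) * ∑ l ∈ range k, (lam / m) ^ d l) := by
  have hl : 0 ≤ lam := (hW0 0 0).trans (hW1 0 0)
  have hn' : (0 : ℝ) < n := by positivity
  have hm' : (0 : ℝ) < m := by positivity
  have hB0 : 0 ≤ B := (abs_nonneg _).trans (hB 0 (Nat.zero_le _))
  set C : ℝ := (B * m + 1) * lam * (2 * B + 5) with hC
  have hC0 : 0 ≤ C := by positivity
  set P : ℕ → ℝ := fun k => Real.exp (C * ∑ l ∈ range k, (lam / m) ^ d l) with hP
  have hPmono : ∀ j k, j ≤ k → P j ≤ P k := by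
    intro j k hjk
    apply Real.exp_le_exp.2
    apply mul_le_mul_of_nonneg_left _ hC0
    apply sum_le_sum_of_subset_of_nonneg (range_mono hjk)
    intro i _ _
    positivity
  intro k
  induction k using Nat.strong_induction_on with
  | _ k ih =>
    intro hk γ
    rcases k with _ | k
    · simp [lineSum, rho]
    · obtain ⟨j, hj⟩ : ∃ j, k = j + d k := ⟨k - d k, by have := hd k; omega⟩
      set e := d k with he
      have e1 : σ * (n / m) ^ (k + 1) * m / n = σ * (n / m) ^ k := by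
        rw [pow_succ]
        field_simp
      have e2 : σ * (n / m) ^ (k + 1) * (m / n) ^ (e + 1) = σ * (n / m) ^ j := by
        rw [hj]
        have : ((n : ℝ) / m) ^ (e + 1) * (m / n) ^ (e + 1) = 1 := by
          rw [← mul_pow]
          have : (n : ℝ) / m * (m / n) = 1 := by field_simp
          rw [this, one_pow]
        calc σ * (n / m) ^ (j + e + 1) * (m / n) ^ (e + 1)
            = σ * (n / m) ^ j * (((n : ℝ) / m) ^ (e + 1) * (m / n) ^ (e + 1)) := by ring
          _ = _ := by rw [this, mul_one]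
      have hs := step_le hm hn hW0 hW1 hWs j e (σ * (n / m) ^ (k + 1)) γ
        (m ^ k * P k) (m ^ j * P k) B
        (by intro g; rw [e1, ← hj]; exact ih k (by omega) (by omega) g)
        (by
          intro g; rw [e2]
          refine (ih j (by omega) (by omega) g).trans ?_
          exact mul_le_mul_of_nonneg_left (hPmono j k (by omega)) (by positivity))
        (by positivity)
        (by rw [e2]; exact hB j (by omega))
      rw [← hj] at hs
      refine hs.trans ?_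
      have hb := hBd k (by omega)
      have hP0 : 0 < P k := Real.exp_pos _
      have h1 : |σ * (n / m) ^ (k + 1)| * m ^ (e + 1) + 1 ≤ B * m + 1 := by
        rw [pow_succ (m : ℝ) e, ← mul_assoc]
        have := mul_le_mul_of_nonneg_right hb hm'.le
        linarith
      have h2 : (|σ * (n / m) ^ (k + 1)| * m ^ (e + 1) + 1) * m * lam ^ (e + 1)
          * ((2 * B + 5) * (m ^ j * P k))
          ≤ (B * m + 1) * m * lam ^ (e + 1) * ((2 * B + 5) * (m ^ j * P k)) := by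
        gcongr
      have h3 : (B * m + 1) * m * lam ^ (e + 1) * ((2 * B + 5) * (m ^ j * P k))
          = m ^ (k + 1) * (P k * (C * (lam / m) ^ e)) := by
        rw [hC]
        conv_rhs => rw [hj]
        rw [← hj]
        have : (m : ℝ) ^ (k + 1) = m ^ j * m ^ e * m := by rw [hj]; ring
        rw [this, div_pow]
        field_simp
        ring
      have h4 : P k * (1 + C * (lam / m) ^ e) ≤ P (k + 1) := by
        simp only [hP]
        rw [sum_range_succ, mul_add C, Real.exp_add]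
        apply mul_le_mul_of_nonneg_left _ (Real.exp_pos _).le
        have := Real.add_one_le_exp (C * (lam / m) ^ d k)
        linarith
      calc m * (m ^ k * P k) + _ ≤ m * (m ^ k * P k) + m ^ (k + 1) * (P k * (C * (lam / m) ^ e)) := by
            rw [← h3]; linarith
        _ = m ^ (k + 1) * (P k * (1 + C * (lam / m) ^ e)) := by ring
        _ ≤ m ^ (k + 1) * P (k + 1) := mul_le_mul_of_nonneg_left h4 (by positivity)

end

end Pool.Agent.Lib.MP_ef0505_an
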