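import Pool.Agent.Lib.MP_ef0505_an.Mass

/-! The mass of any strip is at most a constant times its width. -/

namespace Pool.Agent.Lib.MP_ef0505_an

open Finset

section

variable {m n : ℕ} {W : ℤ → ℤ → ℝ} {lam : ℝ}

theorem exists_level (σ : ℝ) (hσ : |σ| ≤ 1) (K : ℕ) :
    |σ| * ((n : ℝ) / m) ^ K ≤ 1 ∨
      ∃ k e, K = k + e ∧ |σ| * ((n : ℝ) / m) ^ k ≤ 1 ∧ 1 < |σ| * ((n : ℝ) / m) ^ (k + 1) := by
  induction K with
  | zero => left; simpa using hσ
  | succ K ih =>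
    rcases ih with h | ⟨k, e, h1, h2, h3⟩
    · by_cases h' : |σ| * ((n : ℝ) / m) ^ (K + 1) ≤ 1
      · exact Or.inl h'
      · exact Or.inr ⟨K, 1, rfl, h, not_le.1 h'⟩
    · exact Or.inr ⟨k, e + 1, by omega, h2, h3⟩

theorem mass_steep (hm : 0 < m) (hmn : m < n) (hW0 : ∀ a r, 0 ≤ W a r)
    (hW1 : ∀ a r, W a r ≤ lam) (hlam : lam < m)
    (hWc : ∀ (u : ℕ) (a : ℤ), ∑ i ∈ range n, W a ((n * u + i : ℕ) : ℤ) = n) :
    ∃ C : ℝ, 0 ≤ C ∧ ∀ (K : ℕ) (σ γ H : ℝ), |σ| ≤ n → 0 ≤ H → ∀ P : ℕ → ℕ → Prop,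
      (∀ a r, P a r → |(a : ℝ) - (σ * (m / n) ^ K * r + γ)| ≤ H) →
      mass m n W K P ≤ (2 * H + 3) * (C * n ^ K) := by
  obtain ⟨C, hC0, hC⟩ := exists_steep (W := fun r a => W a r) hm hmn (fun a r => hW0 r a)
    (fun a r => hW1 r a) hlam hWc
  refine ⟨C, hC0, ?_⟩
  intro K σ γ H hσ hH P hP
  rw [mass_swap]
  exact mass_strip (fun a r => hW0 r a) K (σ * (m / n) ^ K) γ H _ hH (hC K σ hσ) (by positivity) _
    (fun r a h => hP a r h)

theorem mass_flat (hm : 0 < m) (hmn : m < n) (hW0 : ∀ a r, 0 ≤ W a r)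
    (hW1 : ∀ a r, W a r ≤ lam) (hlam : lam < m)
    (hWs : ∀ (u : ℕ) (r : ℤ), ∑ i ∈ range m, W ((m * u + i : ℕ) : ℤ) r = m)
    (hWc : ∀ (u : ℕ) (a : ℤ), ∑ i ∈ range n, W a ((n * u + i : ℕ) : ℤ) = n)
    (hper : ∀ a r s t : ℤ, W (m * s + a) (n * t + r) = W a r) :
    ∃ C : ℝ, 0 ≤ C ∧ ∀ (K : ℕ) (σ γ H : ℝ), |σ| ≤ 1 → 0 ≤ H → ∀ P : ℕ → ℕ → Prop,
      (∀ a r, P a r → |(r : ℝ) - (σ * (n / m) ^ K * a + γ)| ≤ H) →
      mass m n W K P ≤ C * (H * m ^ K + n ^ K) := by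
  obtain ⟨C1, hC10, hC1⟩ := exists_flat hm hmn hW0 hW1 hlam hWs
  obtain ⟨C2, hC20, hC2⟩ := mass_steep hm hmn hW0 hW1 hlam hWc
  have hn : 0 < n := by omega
  have hn' : (0 : ℝ) < n := by positivity
  have hm' : (0 : ℝ) < m := by positivity
  have hm1 : (1 : ℝ) ≤ m := by exact_mod_cast hm
  have hmn' : (m : ℝ) < n := by exact_mod_cast hmn
  refine ⟨3 * C1 + 21 * C1 * C2 * n, by positivity, ?_⟩
  intro K σ γ H hσ hH P hP
  rcases exists_level (m := m) (n := n) σ hσ K with h | ⟨k, e, rfl, h1, h2⟩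
  · refine (mass_strip hW0 K _ γ H _ hH (hC1 K σ h) (by positivity) P hP).trans ?_
    have h1 : (m : ℝ) ^ K ≤ n ^ K := by gcongr
    have h2 : 0 ≤ H * m ^ K := by positivity
    have h3 : 0 ≤ 21 * C1 * C2 * n * (H * m ^ K + n ^ K) := by positivity
    nlinarith [mul_le_mul_of_nonneg_left h1 hC10, mul_nonneg hC10 h2]
  · set τ : ℝ := σ * (n / m) ^ k with hτ
    have hτ1 : |τ| ≤ 1 := by
      rw [hτ, abs_mul, abs_of_nonneg (a := ((n : ℝ) / m) ^ k) (by positivity)]; exact h1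
    have hτ2 : 1 < |τ| * (n / m) := by
      rw [hτ, abs_mul, abs_of_nonneg (a := ((n : ℝ) / m) ^ k) (by positivity), mul_assoc, ← pow_succ]
      exact h2
    have hτ0 : 0 < |τ| := by
      rcases (abs_nonneg τ).eq_or_lt with h | h
      · rw [← h] at hτ2; norm_num at hτ2
      · exact h
    have hτne : τ ≠ 0 := abs_pos.1 hτ0
    have hinv : |τ⁻¹| ≤ n := by
      rw [abs_inv, inv_le_iff_one_le_mul₀ hτ0]
      have : (n : ℝ) / m ≤ n := div_le_self hn'.le hm1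
      nlinarith
    set H' : ℝ := H * n * (m / n) ^ e with hH'
    set X : ℝ := min ((m : ℝ) ^ e * n ^ e) ((2 * H' + 3) * (C2 * n ^ e)) with hX
    have hX0 : 0 ≤ X := le_min (by positivity) (by positivity)
    have hP' : ∀ a r, P a r → |(r : ℝ) - (τ * (n / m) ^ e * a + γ)| ≤ H := by
      intro a r h
      have := hP a r h
      rwa [pow_add, ← mul_assoc] at this
    have hfac := mass_factor hm hn hW0 hper k e P
      (fun a1 r1 => |(r1 : ℝ) - (τ * a1 + γ / n ^ e)| ≤ H / n ^ e + 2) X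
      (by
        intro a1 r1 a2 r2 ha hr hp
        have h := hP' _ _ hp
        have hne : (0 : ℝ) < n ^ e := by positivity
        have hme : (0 : ℝ) < m ^ e := by positivity
        have ha' : (a2 : ℝ) / m ^ e ≤ 1 := by
          rw [div_le_one hme]; exact_mod_cast ha.le
        have hr' : (r2 : ℝ) / n ^ e ≤ 1 := by
          rw [div_le_one hne]; exact_mod_cast hr.le
        have e1 : (r1 : ℝ) - (τ * a1 + γ / n ^ e)
            = (((n ^ e * r1 + r2 : ℕ) : ℝ) - (τ * (n / m) ^ e * ((m ^ e * a1 + a2 : ℕ) : ℝ) + γ)) / n ^ e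
              + (τ * (a2 / m ^ e) - r2 / n ^ e) := by
          rw [div_pow]; push_cast; field_simp; ring
        rw [e1]
        refine (abs_add_le _ _).trans (add_le_add ?_ ?_)
        · rw [abs_div, abs_of_pos hne]; gcongr
        · refine (abs_sub _ _).trans ?_
          rw [abs_mul, abs_of_nonneg (a := (a2 : ℝ) / m ^ e) (by positivity),
            abs_of_nonneg (a := (r2 : ℝ) / n ^ e) (by positivity)]
          have : |τ| * ((a2 : ℝ) / m ^ e) ≤ 1 := mul_le_one₀ hτ1 (by positivity) ha'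
          linarith)
      (by
        intro a1 r1
        refine le_min (mass_le_total hW0 hWs _ _) ?_
        apply hC2 e τ⁻¹ (τ⁻¹ * (m / n) ^ e * (n ^ e * r1 - γ) - m ^ e * a1) H' hinv (by positivity)
        intro a2 r2 hp
        have h := hP' _ _ hp
        have e1 : (a2 : ℝ) - (τ⁻¹ * (m / n) ^ e * r2
              + (τ⁻¹ * (m / n) ^ e * (n ^ e * r1 - γ) - m ^ e * a1))
            = -(τ⁻¹ * (m / n) ^ e) * (((n ^ e * r1 + r2 : ℕ) : ℝ)
              - (τ * (n / m) ^ e * ((m ^ e * a1 + a2 : ℕ) : ℝ) + γ)) := by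
          rw [div_pow, div_pow]; push_cast; field_simp; ring
        rw [e1, abs_mul, abs_neg, abs_mul, abs_of_nonneg (a := ((m : ℝ) / n) ^ e) (by positivity)]
        calc _ ≤ n * ((m : ℝ) / n) ^ e * H := by gcongr
          _ = H' := by rw [hH']; ring)
    have hout := mass_strip hW0 k τ (γ / n ^ e) (H / n ^ e + 2) _ (by positivity) (hC1 k σ h1)
      (by positivity) (fun a1 r1 => |(r1 : ℝ) - (τ * a1 + γ / n ^ e)| ≤ H / n ^ e + 2)
      (fun _ _ h => h)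
    refine hfac.trans ((mul_le_mul_of_nonneg_right hout hX0).trans ?_)
    have hXa : X ≤ (m : ℝ) ^ e * n ^ e := min_le_left _ _
    have hXb : X ≤ (2 * H' + 3) * (C2 * n ^ e) := min_le_right _ _
    have hmk : (m : ℝ) ^ k ≤ n ^ k := by gcongr
    have hn1 : (1 : ℝ) ≤ n := by linarith
    calc (2 * (H / n ^ e + 2) + 3) * (C1 * m ^ k) * X
        = 2 * (H / n ^ e) * (C1 * m ^ k) * X + 7 * (C1 * m ^ k) * X := by ring
      _ ≤ 2 * (H / n ^ e) * (C1 * m ^ k) * ((m : ℝ) ^ e * n ^ e)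
          + 7 * (C1 * m ^ k) * ((2 * H' + 3) * (C2 * n ^ e)) := by gcongr
      _ = 2 * C1 * (H * m ^ (k + e)) + 14 * C1 * C2 * n * (H * m ^ (k + e))
          + 21 * C1 * C2 * (m ^ k * n ^ e) * 1 := by
          rw [hH', div_pow]; field_simp; ring
      _ ≤ 2 * C1 * (H * m ^ (k + e)) + 14 * C1 * C2 * n * (H * m ^ (k + e))
          + 21 * C1 * C2 * (n ^ k * n ^ e) * n := by gcongr
      _ ≤ _ := by
          rw [← pow_add]
          have h3 : 0 ≤ C1 * (H * m ^ (k + e)) := by positivity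
          have h4 : 0 ≤ C1 * C2 * n * (H * m ^ (k + e)) := by positivity
          have h5 : 0 ≤ C1 * n ^ (k + e) := by positivity
          nlinarith

/-- the mass of the cells whose corner lies in a strip of half-width `h` -/
theorem mass_any (hm : 0 < m) (hmn : m < n) (hW0 : ∀ a r, 0 ≤ W a r)
    (hW1 : ∀ a r, W a r ≤ lam) (hlam : lam < m)
    (hWs : ∀ (u : ℕ) (r : ℤ), ∑ i ∈ range m, W ((m * u + i : ℕ) : ℤ) r = m)
    (hWc : ∀ (u : ℕ) (a : ℤ), ∑ i ∈ range n, W a ((n * u + i : ℕ) : ℤ) = n)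
    (hper : ∀ a r s t : ℤ, W (m * s + a) (n * t + r) = W a r) :
    ∃ C : ℝ, 0 < C ∧ ∀ (K : ℕ) (σ c h : ℝ), |σ| ≤ 1 → 0 ≤ h → ∀ P : ℕ → ℕ → Prop,
      ((∀ a r, P a r → |(r : ℝ) / n ^ K - (σ * (a / m ^ K) + c)| ≤ h) ∨
        (∀ a r, P a r → |(a : ℝ) / m ^ K - (σ * (r / n ^ K) + c)| ≤ h)) →
      mass m n W K P ≤ C * (h + 1 / m ^ K) * (m ^ K * n ^ K) := by
  obtain ⟨C1, hC10, hC1⟩ := mass_flat hm hmn hW0 hW1 hlam hWs hWc hper
  obtain ⟨C2, hC20, hC2⟩ := mass_steep hm hmn hW0 hW1 hlam hWc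
  have hn : 0 < n := by omega
  have hn' : (0 : ℝ) < n := by positivity
  have hm' : (0 : ℝ) < m := by positivity
  have hn1 : (1 : ℝ) ≤ n := by exact_mod_cast hn
  refine ⟨C1 + 3 * C2 + 1, by positivity, ?_⟩
  intro K σ c h hσ hh P hP
  have hnK : (0 : ℝ) < n ^ K := by positivity
  have hmK : (0 : ℝ) < m ^ K := by positivity
  rcases hP with hP | hP
  · have := hC1 K σ (c * n ^ K) (h * n ^ K) hσ (by positivity) P (by
      intro a r hp
      have e1 : (r : ℝ) - (σ * (n / m) ^ K * a + c * n ^ K)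
          = ((r : ℝ) / n ^ K - (σ * (a / m ^ K) + c)) * n ^ K := by
        rw [div_pow]; field_simp
      rw [e1, abs_mul, abs_of_pos hnK]
      gcongr
      exact hP a r hp)
    refine this.trans ?_
    calc C1 * (h * n ^ K * m ^ K + n ^ K) = C1 * (h + 1 / m ^ K) * (m ^ K * n ^ K) := by
          field_simp
      _ ≤ _ := by gcongr; linarith
  · have := hC2 K σ (c * m ^ K) (h * m ^ K) (hσ.trans hn1) (by positivity) P (by
      intro a r hp
      have e1 : (a : ℝ) - (σ * (m / n) ^ K * r + c * m ^ K)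
          = ((a : ℝ) / m ^ K - (σ * (r / n ^ K) + c)) * m ^ K := by
        rw [div_pow]; field_simp
      rw [e1, abs_mul, abs_of_pos hmK]
      gcongr
      exact hP a r hp)
    refine this.trans ?_
    calc (2 * (h * m ^ K) + 3) * (C2 * n ^ K) ≤ (3 * (h * m ^ K) + 3) * (C2 * n ^ K) := by
          gcongr; norm_num
      _ = (3 * C2) * (h + 1 / m ^ K) * (m ^ K * n ^ K) := by
          field_simp
      _ ≤ _ := by gcongr; linarith

end

end Pool.Agent.Lib.MP_ef0505_an
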